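import Pool.Agent.H964.LF.Stm

/-!
Project LF (helper964): assembly of the deterministic energy bound.
-/

set_option autoImplicit false

namespace Pool.Agent.H967.LF

open Pool.Agent.H964.LF Finset

/-! ### Levels -/

theorem lv_le (i : ℕ) : lv i ≤ i := by
  unfold lv
  exact Nat.clog_le_of_le_pow (Nat.lt_two_pow_self)

theorem lv_zero : lv 0 = 0 := by simp [lv]

theorem pow_lv (i : ℕ) : 2 ^ lv i ≤ 2 * (i + 1) := by
  unfold lv
  rcases Nat.eq_zero_or_pos i with h | h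
  · subst h; simp
  · have h1 := Nat.pow_pred_clog_lt_self (b := 2) one_lt_two (x := i + 1) (by omega)
    have h2 : 0 < Nat.clog 2 (i + 1) := Nat.clog_pos one_lt_two (by omega)
    obtain ⟨j, hj⟩ := Nat.exists_eq_succ_of_ne_zero h2.ne'
    rw [hj] at h1 ⊢
    rw [Nat.pred_succ] at h1
    rw [Nat.succ_eq_add_one, pow_succ]
    omega

theorem lv_succ (i : ℕ) : lv (i + 1) = lv i ∨ lv (i + 1) = lv i + 1 := by
  unfold lv
  have h1 : Nat.clog 2 (i + 1) ≤ Nat.clog 2 (i + 1 + 1) := Nat.clog_mono_right 2 (by omega)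
  have h2 : Nat.clog 2 (i + 1 + 1) ≤ Nat.clog 2 (i + 1) + 1 := by
    apply Nat.clog_le_of_le_pow
    have := Nat.le_pow_clog one_lt_two (i + 1)
    rw [pow_succ]
    omega
  omega

/-! ### Cells -/

theorem mem_Grid {d J : ℕ} {q : Site d} : q ∈ Grid d J ↔ ∀ i, q i < 2 ^ J := by
  unfold Grid
  rw [Fintype.mem_piFinset]
  simp only [Finset.mem_range]

theorem cells_top {d J l : ℕ} {k : Site d} (hk : k ∈ Grid d J) :
    cells J l J k = Grid d (J - l) := by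
  unfold cells
  rw [Finset.filter_true_of_mem]
  intro q hq i
  rw [Nat.div_eq_of_lt (mem_Grid.1 hq i), Nat.div_eq_of_lt (mem_Grid.1 hk i)]

theorem card_cells {d J j0 : ℕ} {k : Site d} (hj : j0 ≤ J) (hk : k ∈ Grid d J) :
    (cells J 0 j0 k).card = 2 ^ (d * j0) := by
  have e : cells J 0 j0 k = Fintype.piFinset (fun i : Fin d =>
      Finset.Ico (2 ^ j0 * (k i / 2 ^ j0)) (2 ^ j0 * (k i / 2 ^ j0) + 2 ^ j0)) := by
    ext q
    unfold cells
    rw [Finset.mem_filter, mem_Grid, Fintype.mem_piFinset]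
    simp only [Nat.sub_zero, Finset.mem_Ico]
    constructor
    · rintro ⟨_, h⟩ i
      have h1 := Nat.div_add_mod (q i) (2 ^ j0)
      have h2 := Nat.mod_lt (q i) (show 2 ^ j0 > 0 by positivity)
      rw [← h i]
      omega
    · intro h
      refine ⟨fun i => ?_, fun i => ?_⟩
      · have h1 : k i / 2 ^ j0 < 2 ^ (J - j0) := by
          apply Nat.div_lt_of_lt_mul
          rw [← pow_add, Nat.add_sub_cancel' hj]
          exact mem_Grid.1 hk i
        calc q i < 2 ^ j0 * (k i / 2 ^ j0) + 2 ^ j0 := (h i).2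
          _ = 2 ^ j0 * (k i / 2 ^ j0 + 1) := by ring
          _ ≤ 2 ^ j0 * 2 ^ (J - j0) := Nat.mul_le_mul_left _ h1
          _ = 2 ^ J := by rw [← pow_add, Nat.add_sub_cancel' hj]
      · apply Nat.div_eq_of_lt_le
        · rw [mul_comm]
          exact (h i).1
        · have := (h i).2
          calc q i < 2 ^ j0 * (k i / 2 ^ j0) + 2 ^ j0 := this
            _ = (k i / 2 ^ j0 + 1) * 2 ^ j0 := by ring
  rw [e, Fintype.card_piFinset]
  simp only [Nat.card_Ico, Nat.add_sub_cancel_left, Finset.prod_const, Finset.card_univ,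
    Fintype.card_fin]
  rw [← pow_mul, mul_comm]

theorem avg_sep {d J j0 : ℕ} {k k' : Site d} {w : Site d → ℝ} {H : ℝ} (hj : j0 ≤ J)
    (hk : k ∈ Grid d J) (hk' : k' ∈ Grid d J)
    (hsep : ∀ q ∈ cells J 0 j0 k, ∀ q' ∈ cells J 0 j0 k', H ≤ w q - w q') :
    H ≤ avc J 0 j0 k w - avc J 0 j0 k' w := by
  have hn : (0 : ℝ) < 2 ^ (d * j0) := by positivity
  have c1 : ((cells J 0 j0 k).card : ℝ) = 2 ^ (d * j0) := by
    rw [card_cells hj hk]; push_cast; rfl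
  have c2 : ((cells J 0 j0 k').card : ℝ) = 2 ^ (d * j0) := by
    rw [card_cells hj hk']; push_cast; rfl
  unfold avc
  rw [Nat.sub_zero]
  have h1 : ∀ q ∈ cells J 0 j0 k,
      (∑ q' ∈ cells J 0 j0 k', w q') / 2 ^ (d * j0) + H ≤ w q := by
    intro q hq
    have h2 : ∑ q' ∈ cells J 0 j0 k', w q' ≤ (cells J 0 j0 k').card • (w q - H) :=
      Finset.sum_le_card_nsmul _ _ _ fun q' hq' => by
        have := hsep q hq q' hq'
        linarith
    rw [nsmul_eq_mul, c2] at h2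
    have h3 : (∑ q' ∈ cells J 0 j0 k', w q') / 2 ^ (d * j0) ≤ w q - H := by
      rw [div_le_iff₀ hn]
      linarith
    linarith
  have h4 := Finset.card_nsmul_le_sum _ _ _ h1
  rw [nsmul_eq_mul, c1] at h4
  have h5 : (∑ q' ∈ cells J 0 j0 k', w q') / 2 ^ (d * j0) + H ≤
      (∑ q ∈ cells J 0 j0 k, w q) / 2 ^ (d * j0) := by
    rw [le_div_iff₀ hn]
    linarith
  linarith

/-! ### The steps -/

/-- the averages along the sequence of scales -/
noncomputable def Av {d : ℕ} (B : Finset (Site d)) (w : Site d → ℝ) (J j0 : ℕ) (k : Site d)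
    (i : ℕ) : ℝ := avc J (lv i) (j0 + i) k (fun q => w (rep B (lv i) q))

/-- the total variation at scale `i` -/
noncomputable def Tv {d : ℕ} (B : Finset (Site d)) (w : Site d → ℝ) (J j0 : ℕ) (k : Site d)
    (i : ℕ) : ℝ := tv J (lv i) (j0 + i + 1) k (fun q => w (rep B (lv i) q))

theorem Tv_nonneg {d : ℕ} (B : Finset (Site d)) (w : Site d → ℝ) (J j0 : ℕ) (k : Site d)
    (i : ℕ) : 0 ≤ Tv B w J j0 k i := by
  classical
  unfold Tv tv
  refine Finset.sum_nonneg fun q _ => Finset.sum_nonneg fun j _ => ?_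
  split_ifs
  · exact abs_nonneg _
  · exact le_rfl

theorem step (h2 : S_DT2) (h3 : S_DT3) {d : ℕ} (hd : 1 ≤ d) (B : Finset (Site d))
    (w : Site d → ℝ) {J j0 : ℕ} {k : Site d} (hk : k ∈ Grid d J) {i : ℕ} (hi : j0 + i + 1 ≤ J) :
    |Av B w J j0 k i - Av B w J j0 k (i + 1)| ≤
      2 * (2 ^ (j0 + i - lv i) / 2 ^ (d * (j0 + i - lv i)) * Tv B w J j0 k i) := by
  have hl := lv_le i
  have hT := Tv_nonneg B w J j0 k i
  have e1 := h2 d J (lv i) (j0 + i) k (fun q => w (rep B (lv i) q)) hd (by omega) hi hk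
  have e1' : |avc J (lv i) (j0 + i) k (fun q => w (rep B (lv i) q)) -
      avc J (lv i) (j0 + i + 1) k (fun q => w (rep B (lv i) q))| ≤
      2 ^ (j0 + i - lv i) / 2 ^ (d * (j0 + i - lv i)) * Tv B w J j0 k i := e1
  set D : ℝ := 2 ^ (j0 + i - lv i) / 2 ^ (d * (j0 + i - lv i)) * Tv B w J j0 k i with hD
  have hD0 : 0 ≤ D := by positivity
  unfold Av
  rcases lv_succ i with h | h
  · rw [h]
    have : j0 + (i + 1) = j0 + i + 1 := by ring
    rw [this]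
    linarith
  · have e2 := h3 d B w J (lv i) (j0 + i + 1) k hd (by omega) hi hk
    have e3 : j0 + i + 1 - lv i - 1 = j0 + i - lv i := by omega
    rw [e3] at e2
    have e4 : Tv B w J j0 k i / 2 ^ (d * (j0 + i - lv i)) ≤ D := by
      rw [hD, div_mul_eq_mul_div]
      apply div_le_div_of_nonneg_right _ (by positivity)
      have : (1 : ℝ) ≤ 2 ^ (j0 + i - lv i) := one_le_pow₀ one_le_two
      calc Tv B w J j0 k i = 1 * Tv B w J j0 k i := (one_mul _).symm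
        _ ≤ _ := mul_le_mul_of_nonneg_right this hT
    have e5 : |avc J (lv i) (j0 + i + 1) k (fun q => w (rep B (lv i) q)) -
        avc J (lv i + 1) (j0 + i + 1) k (fun q => w (rep B (lv i + 1) q))| ≤ D :=
      e2.trans e4
    rw [h]
    have : j0 + (i + 1) = j0 + i + 1 := by ring
    rw [this]
    calc |avc J (lv i) (j0 + i) k (fun q => w (rep B (lv i) q)) -
          avc J (lv i + 1) (j0 + i + 1) k (fun q => w (rep B (lv i + 1) q))|
        ≤ |avc J (lv i) (j0 + i) k (fun q => w (rep B (lv i) q)) -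
            avc J (lv i) (j0 + i + 1) k (fun q => w (rep B (lv i) q))| +
          |avc J (lv i) (j0 + i + 1) k (fun q => w (rep B (lv i) q)) -
            avc J (lv i + 1) (j0 + i + 1) k (fun q => w (rep B (lv i + 1) q))| :=
          abs_sub_le _ _ _
      _ ≤ 2 * D := by linarith

/-! ### Powers of two -/

theorem bad_pure {d p l j i : ℕ} (hd : 3 ≤ d) (h : p + l = j + i) :
    (2 : ℝ) ^ p / 2 ^ (d * p) * (2 ^ l * (2 ^ (d * j) * 2 ^ ((d - 2) * i) / 2 ^ (d * l))) =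
      2 ^ j / 2 ^ i := by
  obtain ⟨e, rfl⟩ : ∃ e, d = e + 2 := ⟨d - 2, by omega⟩
  rw [Nat.add_sub_cancel, ← mul_div_assoc, div_mul_div_comm, div_eq_div_iff (by positivity)
    (by positivity)]
  simp only [← pow_add]
  congr 1
  have h1 : (e + 2) * p + (e + 2) * l = (e + 2) * (j + i) := by rw [← mul_add, h]
  nlinarith

theorem good_eq {e p l j i : ℕ} (h : p + l = j + i) :
    ((2 : ℝ) ^ p / 2 ^ ((e + 2) * p)) ^ 2 * 2 ^ ((e + 2) * (p + 1)) * 2 ^ ((e + 6) * l) =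
      2 ^ (e + 2) / 2 ^ (e * j) * (2 ^ (2 * (e + 3) * l) / 2 ^ (e * i)) := by
  rw [div_pow, div_mul_eq_mul_div, div_mul_eq_mul_div, div_mul_div_comm,
    div_eq_div_iff (by positivity) (by positivity)]
  simp only [← pow_mul, ← pow_add]
  congr 1
  have h1 : e * p + e * l = e * (j + i) := by rw [← mul_add, h]
  nlinarith

theorem good_pure {d p l j i : ℕ} (hd : 3 ≤ d) (h : p + l = j + i)
    (hl : (2 : ℝ) ^ l ≤ 2 * ((i : ℝ) + 1)) :
    ((2 : ℝ) ^ p / 2 ^ (d * p)) ^ 2 * 2 ^ (d * (p + 1)) * (9 * 2 ^ d) ^ l ≤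
      2 ^ d / 2 ^ ((d - 2) * j) * (((2 * ((i : ℝ) + 1)) ^ (d + 1)) ^ 2 / 2 ^ i) := by
  obtain ⟨e, rfl⟩ : ∃ e, d = e + 2 := ⟨d - 2, by omega⟩
  have he : 1 ≤ e := by omega
  rw [Nat.add_sub_cancel]
  have h1 : ((9 : ℝ) * 2 ^ (e + 2)) ^ l ≤ 2 ^ ((e + 6) * l) := by
    rw [pow_mul]
    apply pow_le_pow_left₀ (by positivity)
    have : (2 : ℝ) ^ (e + 6) = 16 * 2 ^ (e + 2) := by ring
    rw [this]
    have : (0 : ℝ) < 2 ^ (e + 2) := by positivity
    linarith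
  have h2 : (2 : ℝ) ^ (2 * (e + 3) * l) / 2 ^ (e * i) ≤
      ((2 * ((i : ℝ) + 1)) ^ (e + 2 + 1)) ^ 2 / 2 ^ i := by
    apply div_le_div₀ (by positivity) _ (by positivity)
    · exact pow_le_pow_right₀ one_le_two (by nlinarith)
    · rw [← pow_mul, show 2 * (e + 3) * l = l * ((e + 2 + 1) * 2) by ring, pow_mul]
      exact pow_le_pow_left₀ (by positivity) hl _
  calc ((2 : ℝ) ^ p / 2 ^ ((e + 2) * p)) ^ 2 * 2 ^ ((e + 2) * (p + 1)) * (9 * 2 ^ (e + 2)) ^ l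
      ≤ ((2 : ℝ) ^ p / 2 ^ ((e + 2) * p)) ^ 2 * 2 ^ ((e + 2) * (p + 1)) * 2 ^ ((e + 6) * l) :=
        mul_le_mul_of_nonneg_left h1 (by positivity)
    _ = 2 ^ (e + 2) / 2 ^ (e * j) * (2 ^ (2 * (e + 3) * l) / 2 ^ (e * i)) := good_eq h
    _ ≤ _ := mul_le_mul_of_nonneg_left h2 (by positivity)

/-! ### The energy -/

theorem SS_nonneg {d : ℕ} (B : Finset (Site d)) (w : Site d → ℝ) (J l : ℕ) :
    0 ≤ SS B w J l := by
  classical
  unfold SS
  refine Finset.sum_nonneg fun q _ => Finset.sum_nonneg fun j _ => ?_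
  split_ifs
  · exact sq_nonneg _
  · exact le_rfl

theorem SS_le (h1 : S_DT1) {d : ℕ} (hd : 3 ≤ d) (B : Finset (Site d)) (w : Site d → ℝ) (J : ℕ) :
    ∀ l ≤ J, SS B w J l ≤ (9 * 2 ^ d) ^ l * SS B w J 0 := by
  intro l
  induction l with
  | zero => intro _; simp
  | succ l ih =>
    intro hl
    have h2 := ih (by omega)
    have h3 := h1 d B w J l hd hl
    calc SS B w J (l + 1) ≤ 9 * 2 ^ d * SS B w J l := h3
      _ ≤ 9 * 2 ^ d * ((9 * 2 ^ d) ^ l * SS B w J 0) :=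
        mul_le_mul_of_nonneg_left h2 (by positivity)
      _ = _ := by ring

/-! ### The bound of one step -/

/-- the geometric ratio -/
noncomputable def rr : ℝ := Real.sqrt (1 / 2)

theorem rr_sq (i : ℕ) : (rr ^ i) ^ 2 = 1 / 2 ^ i := by
  unfold rr
  rw [← pow_mul, mul_comm, pow_mul, Real.sq_sqrt (by norm_num), one_div_pow]

theorem rr_nonneg : 0 ≤ rr := Real.sqrt_nonneg _

theorem rr_lt : rr < 1 := by
  unfold rr
  rw [Real.sqrt_lt' one_pos]
  norm_num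

/-- the summable weights -/
noncomputable def cc (d i : ℕ) : ℝ := (2 * ((i : ℝ) + 1)) ^ (d + 1) * rr ^ i

theorem cc_nonneg (d i : ℕ) : 0 ≤ cc d i :=
  mul_nonneg (by positivity) (pow_nonneg rr_nonneg _)

theorem cc_summable (d : ℕ) : Summable (cc d) := by
  have hr0 : 0 < rr := Real.sqrt_pos.2 (by norm_num)
  have h1 : Summable (fun n : ℕ => ((n : ℝ)) ^ (d + 1) * rr ^ n) :=
    summable_pow_mul_geometric_of_norm_lt_one (d + 1) (by
      rw [Real.norm_eq_abs, abs_of_nonneg rr_nonneg]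
      exact rr_lt)
  have h2 := ((summable_nat_add_iff 1).2 h1).mul_left (2 ^ (d + 1) / rr)
  refine h2.congr fun i => ?_
  unfold cc
  push_cast
  rw [mul_pow, pow_succ rr i]
  field_simp

/-- the constant -/
noncomputable def ZZ (d : ℕ) : ℝ := ∑' i, cc d i

theorem ZZ_pos (d : ℕ) : 0 < ZZ d := by
  have h1 : cc d 0 ≤ ZZ d := (cc_summable d).le_tsum 0 fun j _ => cc_nonneg d j
  have h2 : 0 < cc d 0 := by
    unfold cc
    rw [pow_zero, mul_one]
    positivity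
  linarith

theorem one_step (h1 : S_DT1) (h4 : S_DT4) {d : ℕ} (hd : 3 ≤ d) {ν H Λ : ℝ} (hν : 0 < ν)
    (B : Finset (Site d)) (w : Site d → ℝ) {J j0 : ℕ} {k : Site d} (hk : k ∈ Grid d J)
    (hΛ0 : 0 ≤ Λ) (hL : LipG J w Λ) (hΛ : Λ * 2 ^ j0 ≤ H) (hH : Hc ν B J j0 k) {i : ℕ}
    (hi : j0 + i + 1 ≤ J) :
    2 ^ (j0 + i - lv i) / 2 ^ (d * (j0 + i - lv i)) * Tv B w J j0 k i ≤
      Real.sqrt (d * 2 ^ d * SS B w J 0 / 2 ^ ((d - 2) * j0)) * cc d i +
        4 * (d : ℝ) ^ 2 * ν * H * (1 / 2) ^ i := by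
  have hl := lv_le i
  obtain ⟨p, hp⟩ : ∃ p, p = j0 + i - lv i := ⟨_, rfl⟩
  have hpl : p + lv i = j0 + i := by omega
  have hp1 : j0 + i + 1 - lv i = p + 1 := by omega
  rw [← hp]
  have e1 := h4 d B w Λ J (lv i) (j0 + i + 1) k (by omega) (by omega) hi hk hΛ0 hL
  have e1' : Tv B w J j0 k i ≤ Real.sqrt (d * 2 ^ (d * (j0 + i + 1 - lv i))) *
      Real.sqrt (SS B w J (lv i)) + 4 * (d : ℝ) ^ 2 * 2 ^ (lv i) * Λ *
        nbad B J (lv i) (j0 + i + 1) k := e1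
  rw [hp1] at e1'
  have hx : (0 : ℝ) ≤ 2 ^ p / 2 ^ (d * p) := by positivity
  refine (mul_le_mul_of_nonneg_left e1' hx).trans ?_
  rw [mul_add]
  refine add_le_add ?_ ?_
  · -- the good part
    have hcc := cc_nonneg d i
    have hS0 := SS_nonneg B w J 0
    have hSl := SS_nonneg B w J (lv i)
    apply (pow_le_pow_iff_left₀ (by positivity) (by positivity) two_ne_zero).1
    have hlR : (2 : ℝ) ^ (lv i) ≤ 2 * ((i : ℝ) + 1) := by exact_mod_cast pow_lv i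
    have g1 := good_pure (d := d) (p := p) (l := lv i) (j := j0) (i := i) hd hpl hlR
    have g2 := SS_le h1 hd B w J (lv i) (by omega)
    have s1 : (Real.sqrt (d * 2 ^ d * SS B w J 0 / 2 ^ ((d - 2) * j0)) * cc d i) ^ 2 =
        (d * 2 ^ d * SS B w J 0 / 2 ^ ((d - 2) * j0)) * cc d i ^ 2 := by
      rw [mul_pow, Real.sq_sqrt (by positivity)]
    have s2 : cc d i ^ 2 = ((2 * ((i : ℝ) + 1)) ^ (d + 1)) ^ 2 * (1 / 2 ^ i) := by
      unfold cc
      rw [mul_pow _ (rr ^ i), rr_sq]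
    calc (2 ^ p / 2 ^ (d * p) * (Real.sqrt (d * 2 ^ (d * (p + 1))) *
          Real.sqrt (SS B w J (lv i)))) ^ 2
        = (2 ^ p / 2 ^ (d * p)) ^ 2 * (d * 2 ^ (d * (p + 1)) * SS B w J (lv i)) := by
          rw [mul_pow, mul_pow, Real.sq_sqrt (by positivity), Real.sq_sqrt hSl]
      _ ≤ (2 ^ p / 2 ^ (d * p)) ^ 2 * (d * 2 ^ (d * (p + 1)) *
            ((9 * 2 ^ d) ^ lv i * SS B w J 0)) := by
          apply mul_le_mul_of_nonneg_left _ (by positivity)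
          exact mul_le_mul_of_nonneg_left g2 (by positivity)
      _ = ((2 ^ p / 2 ^ (d * p)) ^ 2 * 2 ^ (d * (p + 1)) * (9 * 2 ^ d) ^ lv i) *
            (d * SS B w J 0) := by ring
      _ ≤ (2 ^ d / 2 ^ ((d - 2) * j0) * (((2 * ((i : ℝ) + 1)) ^ (d + 1)) ^ 2 / 2 ^ i)) *
            (d * SS B w J 0) := mul_le_mul_of_nonneg_right g1 (by positivity)
      _ = (Real.sqrt (d * 2 ^ d * SS B w J 0 / 2 ^ ((d - 2) * j0)) * cc d i) ^ 2 := by
          rw [s1, s2]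
          ring
  · -- the bad part
    have hb := hH i hi
    have hpos : (0 : ℝ) ≤ 4 * (d : ℝ) ^ 2 * 2 ^ (lv i) * Λ := by positivity
    calc 2 ^ p / 2 ^ (d * p) * (4 * (d : ℝ) ^ 2 * 2 ^ (lv i) * Λ *
          nbad B J (lv i) (j0 + i + 1) k)
        ≤ 2 ^ p / 2 ^ (d * p) * (4 * (d : ℝ) ^ 2 * 2 ^ (lv i) * Λ *
          (ν * 2 ^ (d * j0) * 2 ^ ((d - 2) * i) / 2 ^ (d * lv i))) := by
          apply mul_le_mul_of_nonneg_left _ hx
          exact mul_le_mul_of_nonneg_left hb hpos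
      _ = 4 * (d : ℝ) ^ 2 * ν * Λ * (2 ^ p / 2 ^ (d * p) * (2 ^ (lv i) *
          (2 ^ (d * j0) * 2 ^ ((d - 2) * i) / 2 ^ (d * lv i)))) := by ring
      _ = 4 * (d : ℝ) ^ 2 * ν * Λ * (2 ^ j0 / 2 ^ i) := by rw [bad_pure hd hpl]
      _ = 4 * (d : ℝ) ^ 2 * ν * (Λ * 2 ^ j0) * (1 / 2) ^ i := by
          rw [one_div_pow]
          ring
      _ ≤ 4 * (d : ℝ) ^ 2 * ν * H * (1 / 2) ^ i := by
          apply mul_le_mul_of_nonneg_right _ (by positivity)
          exact mul_le_mul_of_nonneg_left hΛ (by positivity)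

/-! ### Telescoping -/

theorem tele (h1 : S_DT1) (h2 : S_DT2) (h3 : S_DT3) (h4 : S_DT4) {d : ℕ} (hd : 3 ≤ d)
    {ν H Λ : ℝ} (hν : 0 < ν)
    (B : Finset (Site d)) (w : Site d → ℝ) {J j0 : ℕ} {k : Site d} (hk : k ∈ Grid d J)
    (hΛ0 : 0 ≤ Λ) (hL : LipG J w Λ) (hΛ : Λ * 2 ^ j0 ≤ H) (hH : Hc ν B J j0 k) :
    ∀ n, j0 + n ≤ J → |Av B w J j0 k 0 - Av B w J j0 k n| ≤
      ∑ i ∈ Finset.range n, 2 * (Real.sqrt (d * 2 ^ d * SS B w J 0 / 2 ^ ((d - 2) * j0)) * cc d i +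
        4 * (d : ℝ) ^ 2 * ν * H * (1 / 2) ^ i) := by
  intro n
  induction n with
  | zero => intro _; simp
  | succ n ih =>
    intro hn
    rw [Finset.sum_range_succ]
    have e1 := ih (by omega)
    have e2 := step h2 h3 (by omega) B w hk (i := n) (by omega)
    have e3 := one_step h1 h4 hd hν B w hk hΛ0 hL hΛ hH (i := n) (by omega)
    calc |Av B w J j0 k 0 - Av B w J j0 k (n + 1)| ≤
          |Av B w J j0 k 0 - Av B w J j0 k n| + |Av B w J j0 k n - Av B w J j0 k (n + 1)| :=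
          abs_sub_le _ _ _
      _ ≤ _ := add_le_add e1 (e2.trans (mul_le_mul_of_nonneg_left e3 zero_le_two))

theorem tele_le (h1 : S_DT1) (h2 : S_DT2) (h3 : S_DT3) (h4 : S_DT4) {d : ℕ} (hd : 3 ≤ d)
    {ν H Λ : ℝ} (hν : 0 < ν) (hH0 : 0 < H)
    (B : Finset (Site d)) (w : Site d → ℝ) {J j0 : ℕ} {k : Site d} (hk : k ∈ Grid d J)
    (hj : j0 ≤ J)
    (hΛ0 : 0 ≤ Λ) (hL : LipG J w Λ) (hΛ : Λ * 2 ^ j0 ≤ H) (hH : Hc ν B J j0 k) :
    |Av B w J j0 k 0 - Av B w J j0 k (J - j0)| ≤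
      2 * (Real.sqrt (d * 2 ^ d * SS B w J 0 / 2 ^ ((d - 2) * j0)) * ZZ d) +
        16 * (d : ℝ) ^ 2 * ν * H := by
  refine (tele h1 h2 h3 h4 hd hν B w hk hΛ0 hL hΛ hH (J - j0) (by omega)).trans ?_
  rw [← Finset.mul_sum, Finset.sum_add_distrib, ← Finset.mul_sum, ← Finset.mul_sum]
  have e1 : ∑ i ∈ Finset.range (J - j0), cc d i ≤ ZZ d :=
    (cc_summable d).sum_le_tsum _ fun i _ => cc_nonneg d i
  have e2 : ∑ i ∈ Finset.range (J - j0), (1 / 2 : ℝ) ^ i ≤ 2 := sum_geometric_two_le _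
  have e3 := mul_le_mul_of_nonneg_left e1
    (Real.sqrt_nonneg (d * 2 ^ d * SS B w J 0 / 2 ^ ((d - 2) * j0)))
  have e4 := mul_le_mul_of_nonneg_left e2 (show 0 ≤ 4 * (d : ℝ) ^ 2 * ν * H by positivity)
  linarith

theorem t_DET : S_DT1 → S_DT2 → S_DT3 → S_DT4 → S_DET := by
  intro h1 h2 h3 h4 d hd
  have hd0 : (0 : ℝ) < d := by
    have : 0 < d := by omega
    exact_mod_cast this
  have hZ := ZZ_pos d
  refine ⟨1 / (64 * (d : ℝ) ^ 2), 1 / (64 * ZZ d ^ 2 * (d * 2 ^ d)), by positivity, by positivity,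
    ?_⟩
  intro B w J j0 Λ H k k' hj hH hΛ0 hL hΛ hk hk' hsep hc hc'
  have hν : (0 : ℝ) < 1 / (64 * (d : ℝ) ^ 2) := by positivity
  have a1 := tele_le h1 h2 h3 h4 hd hν hH B w hk hj hΛ0 hL hΛ hc
  have a2 := tele_le h1 h2 h3 h4 hd hν hH B w hk' hj hΛ0 hL hΛ hc'
  have hν' : 16 * (d : ℝ) ^ 2 * (1 / (64 * (d : ℝ) ^ 2)) * H = H / 4 := by
    field_simp
    norm_num
  rw [hν'] at a1 a2
  set R : ℝ := Real.sqrt (d * 2 ^ d * SS B w J 0 / 2 ^ ((d - 2) * j0)) with hR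
  have hR0 : 0 ≤ R := Real.sqrt_nonneg _
  -- the top level
  have a3 : Av B w J j0 k (J - j0) = Av B w J j0 k' (J - j0) := by
    unfold Av avc
    rw [Nat.add_sub_cancel' hj, cells_top hk, cells_top hk']
  -- the bottom level
  have a4 : ∀ k : Site d, Av B w J j0 k 0 = avc J 0 j0 k w := by
    intro k
    unfold Av
    rw [lv_zero, Nat.add_zero]
    rfl
  have a5 := avg_sep hj hk hk' hsep
  rw [← a4, ← a4] at a5
  have a6 : H ≤ 8 * (R * ZZ d) := by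
    have b1 := (abs_le.1 a1).2
    have b2 := (abs_le.1 a2).1
    rw [a3] at b1
    linarith
  have hS0 := SS_nonneg B w J 0
  have a7 : H ^ 2 ≤ 64 * (d * 2 ^ d * SS B w J 0 / 2 ^ ((d - 2) * j0)) * ZZ d ^ 2 := by
    calc H ^ 2 ≤ (8 * (R * ZZ d)) ^ 2 := pow_le_pow_left₀ hH.le a6 2
      _ = 64 * R ^ 2 * ZZ d ^ 2 := by ring
      _ = _ := by rw [hR, Real.sq_sqrt (by positivity)]
  have hpw : (0 : ℝ) < 2 ^ ((d - 2) * j0) := by positivity
  have hcst : (0 : ℝ) < 64 * ZZ d ^ 2 * (d * 2 ^ d) := by positivity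
  have a8 : H ^ 2 * 2 ^ ((d - 2) * j0) ≤ 64 * ZZ d ^ 2 * (d * 2 ^ d) * SS B w J 0 := by
    calc H ^ 2 * 2 ^ ((d - 2) * j0)
        ≤ 64 * (d * 2 ^ d * SS B w J 0 / 2 ^ ((d - 2) * j0)) * ZZ d ^ 2 * 2 ^ ((d - 2) * j0) :=
          mul_le_mul_of_nonneg_right a7 hpw.le
      _ = _ := by field_simp
  calc 1 / (64 * ZZ d ^ 2 * (d * 2 ^ d)) * H ^ 2 * 2 ^ ((d - 2) * j0)
      = (H ^ 2 * 2 ^ ((d - 2) * j0)) / (64 * ZZ d ^ 2 * (d * 2 ^ d)) := by ring
    _ ≤ SS B w J 0 := by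
        rw [div_le_iff₀ hcst]
        linarith

end Pool.Agent.H967.LF
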